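import Pool.Agent.Lib.MP_fa837f_gt.Defs

/-!
Two-sums of subspaces and log-concavity of sections of boxes and of `ℓ_p` balls: definitions used in
the final statement.
-/

set_option autoImplicit false

namespace Pool.Agent.Lib.MP_fa837f_gt.TS

/-- `vol_k(D_t B_∞^n ∩ H)`: the volume of the section by `H` of the box with half sides
`e^{t_1}, …, e^{t_n}`. -/
noncomputable def cubeVol {n : ℕ} (H : Submodule ℝ (EuclideanSpace ℝ (Fin n)))
    (t : Fin n → ℝ) : ℝ :=
  (lebesgueOn H {x | ∀ i, |x i| ≤ Real.exp (t i)}).toReal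

/-- `F` is positive and log-concave on `ℝ^n`. -/
def LogConcave {n : ℕ} (F : (Fin n → ℝ) → ℝ) : Prop :=
  (∀ t, 0 < F t) ∧
  ∀ s t : Fin n → ℝ, ∀ l : ℝ, 0 ≤ l → l ≤ 1 → F s ^ l * F t ^ (1 - l) ≤ F (l • s + (1 - l) • t)

/-- The point of `ℝ^{n+1}` with first coordinate `z` and other coordinates `x`. -/
noncomputable def pcons {n : ℕ} (z : ℝ) (x : Fin n → ℝ) : EuclideanSpace ℝ (Fin (n + 1)) :=
  WithLp.toLp 2 (Fin.cons z x : Fin (n + 1) → ℝ)

/-- The direct sum of subspaces of `ℝ^n` and of `ℝ^m`. -/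
def dirSum {n m : ℕ} (H₁ : Submodule ℝ (EuclideanSpace ℝ (Fin n)))
    (H₂ : Submodule ℝ (EuclideanSpace ℝ (Fin m))) :
    Submodule ℝ (EuclideanSpace ℝ (Fin (n + m))) where
  carrier := {x | WithLp.toLp 2 (fun i => x (Fin.castAdd m i)) ∈ H₁ ∧
    WithLp.toLp 2 (fun j => x (Fin.natAdd n j)) ∈ H₂}
  add_mem' := by
    rintro x y ⟨h1, h2⟩ ⟨h3, h4⟩
    exact ⟨H₁.add_mem h1 h3, H₂.add_mem h2 h4⟩
  zero_mem' := ⟨H₁.zero_mem, H₂.zero_mem⟩
  smul_mem' := by
    rintro c x ⟨h1, h2⟩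
    exact ⟨H₁.smul_mem c h1, H₂.smul_mem c h2⟩

/-- The two-sum of `H₁ ⊆ ℝ^{n+1}` and `H₂ ⊆ ℝ^{m+1}` along their first coordinates: the set of all
`(x, y)` in `ℝ^n × ℝ^m` such that `(z, x) ∈ H₁` and `(z, y) ∈ H₂` for some `z`. -/
def twoSum {n m : ℕ} (H₁ : Submodule ℝ (EuclideanSpace ℝ (Fin (n + 1))))
    (H₂ : Submodule ℝ (EuclideanSpace ℝ (Fin (m + 1)))) :
    Submodule ℝ (EuclideanSpace ℝ (Fin (n + m))) where
  carrier := {x | ∃ z : ℝ, pcons z (fun i => x (Fin.castAdd m i)) ∈ H₁ ∧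
    pcons z (fun j => x (Fin.natAdd n j)) ∈ H₂}
  add_mem' := by
    rintro x y ⟨z, h1, h2⟩ ⟨z', h3, h4⟩
    refine ⟨z + z', ?_, ?_⟩
    · have h := H₁.add_mem h1 h3
      convert h using 1
      ext i
      refine Fin.cases ?_ (fun j => ?_) i <;> simp [pcons]
    · have h := H₂.add_mem h2 h4
      convert h using 1
      ext i
      refine Fin.cases ?_ (fun j => ?_) i <;> simp [pcons]
  zero_mem' := by
    refine ⟨0, ?_, ?_⟩
    · convert H₁.zero_mem using 1
      ext i
      refine Fin.cases ?_ (fun j => ?_) i <;> simp [pcons]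
    · convert H₂.zero_mem using 1
      ext i
      refine Fin.cases ?_ (fun j => ?_) i <;> simp [pcons]
  smul_mem' := by
    rintro c x ⟨z, h1, h2⟩
    refine ⟨c * z, ?_, ?_⟩
    · have h := H₁.smul_mem c h1
      convert h using 1
      ext i
      refine Fin.cases ?_ (fun j => ?_) i <;> simp [pcons]
    · have h := H₂.smul_mem c h2
      convert h using 1
      ext i
      refine Fin.cases ?_ (fun j => ?_) i <;> simp [pcons]

/-- The first coordinate is neither zero on all of `H` nor independent of the other ones: some point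
of `H` has a nonzero first coordinate, and `(1, 0, …, 0)` is not in `H`. -/
def Proper {n : ℕ} (H : Submodule ℝ (EuclideanSpace ℝ (Fin (n + 1)))) : Prop :=
  (∃ x ∈ H, x 0 ≠ 0) ∧ pcons 1 0 ∉ H

/-- The subspace obtained by a permutation of the coordinates. -/
def permSub {n : ℕ} (σ : Equiv.Perm (Fin n)) (H : Submodule ℝ (EuclideanSpace ℝ (Fin n))) :
    Submodule ℝ (EuclideanSpace ℝ (Fin n)) where
  carrier := {x | WithLp.toLp 2 (fun i => x (σ i)) ∈ H}
  add_mem' := fun h1 h2 => H.add_mem h1 h2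
  zero_mem' := H.zero_mem
  smul_mem' := fun c _ h => H.smul_mem c h

/-- The smallest class of subspaces of the spaces `ℝ^n` that contains all subspaces of dimension at
most two, all subspaces `H` for which `cubeVol H` is log-concave, and that is closed under
permutations of the coordinates, direct sums and two-sums. -/
inductive Built : ∀ {n : ℕ}, Submodule ℝ (EuclideanSpace ℝ (Fin n)) → Prop
  | small {n : ℕ} (H : Submodule ℝ (EuclideanSpace ℝ (Fin n))) :
      Module.finrank ℝ H ≤ 2 → Built H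
  | good {n : ℕ} (H : Submodule ℝ (EuclideanSpace ℝ (Fin n))) :
      LogConcave (cubeVol H) → Built H
  | perm {n : ℕ} (σ : Equiv.Perm (Fin n)) (H : Submodule ℝ (EuclideanSpace ℝ (Fin n))) :
      Built H → Built (permSub σ H)
  | dirSum {n m : ℕ} (H₁ : Submodule ℝ (EuclideanSpace ℝ (Fin n)))
      (H₂ : Submodule ℝ (EuclideanSpace ℝ (Fin m))) :
      Built H₁ → Built H₂ → Built (dirSum H₁ H₂)
  | twoSum {n m : ℕ} (H₁ : Submodule ℝ (EuclideanSpace ℝ (Fin (n + 1))))
      (H₂ : Submodule ℝ (EuclideanSpace ℝ (Fin (m + 1)))) :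
      Proper H₁ → Proper H₂ → Built H₁ → Built H₂ → Built (twoSum H₁ H₂)

end Pool.Agent.Lib.MP_fa837f_gt.TS
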