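import Mathlib
import Pool.Agent.Lib.MP_fa837f_gt.Bridge
import Pool.Agent.Lib.MP_fa837f_gt.TS.Defs

/-!
Interface of the project TS: see `Paper.md`. Every `...Statement` below is proved in one module.
-/

set_option autoImplicit false

open MeasureTheory Set Filter Topology

namespace Pool.Agent.Lib.MP_fa837f_gt.TS

/-! ### Part A: one variable analysis -/

/-- A function `f θ ρ` of two real variables with some of its derivatives, jointly concave: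
`p = ∂ρ f`, `a = ∂θ f`, `P = - ∂ρρ f`, `m = ∂ρθ f`, `k = ∂θθ f`, `c = ∂ρθθ f`. -/
structure Jet where
  f : ℝ → ℝ → ℝ
  p : ℝ → ℝ → ℝ
  a : ℝ → ℝ → ℝ
  P : ℝ → ℝ → ℝ
  m : ℝ → ℝ → ℝ
  k : ℝ → ℝ → ℝ
  c : ℝ → ℝ → ℝ
  hfp : ∀ θ ρ, HasDerivAt (fun x => f θ x) (p θ ρ) ρ
  hfa : ∀ θ ρ, HasDerivAt (fun x => f x ρ) (a θ ρ) θ
  hpP : ∀ θ ρ, HasDerivAt (fun x => p θ x) (-(P θ ρ)) ρ
  hpm : ∀ θ ρ, HasDerivAt (fun x => p x ρ) (m θ ρ) θ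
  ham : ∀ θ ρ, HasDerivAt (fun x => a θ x) (m θ ρ) ρ
  hak : ∀ θ ρ, HasDerivAt (fun x => a x ρ) (k θ ρ) θ
  hmc : ∀ θ ρ, HasDerivAt (fun x => m x ρ) (c θ ρ) θ
  hkc : ∀ θ ρ, HasDerivAt (fun x => k θ x) (c θ ρ) ρ
  cf : Continuous fun z : ℝ × ℝ => f z.1 z.2
  cp : Continuous fun z : ℝ × ℝ => p z.1 z.2
  ca : Continuous fun z : ℝ × ℝ => a z.1 z.2
  cP : Continuous fun z : ℝ × ℝ => P z.1 z.2
  cm : Continuous fun z : ℝ × ℝ => m z.1 z.2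
  ck : Continuous fun z : ℝ × ℝ => k z.1 z.2
  cc : Continuous fun z : ℝ × ℝ => c z.1 z.2
  bdd : ∃ K : ℝ, ∀ θ ρ, |a θ ρ| ≤ K ∧ |P θ ρ| ≤ K ∧ |m θ ρ| ≤ K ∧ |k θ ρ| ≤ K ∧ |c θ ρ| ≤ K
  hP : ∀ θ ρ, 0 ≤ P θ ρ
  hk : ∀ θ ρ, k θ ρ ≤ 0
  hm : ∀ θ ρ, m θ ρ ^ 2 ≤ P θ ρ * -(k θ ρ)

/-- Admissible functions: jointly concave, nondecreasing and 1-Lipschitz in `ρ`, Lipschitz in `θ`. -/
structure Adm (φ : ℝ → ℝ → ℝ) : Prop where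
  conc : ConcaveOn ℝ Set.univ (fun z : ℝ × ℝ => φ z.1 z.2)
  mono : ∀ θ ρ ρ', ρ ≤ ρ' → φ θ ρ ≤ φ θ ρ'
  lip : ∀ θ ρ ρ', ρ ≤ ρ' → φ θ ρ' ≤ φ θ ρ + (ρ' - ρ)
  tlip : ∃ L : ℝ, ∀ θ θ' ρ, |φ θ ρ - φ θ' ρ| ≤ L * |θ - θ'|

/-- `χ` tends to `-∞` at both ends. -/
def Coer (χ : ℝ → ℝ) : Prop := Tendsto χ atBot atBot ∧ Tendsto χ atTop atBot

/-- MOLL: smoothing, uniformly close. -/
def MollStatement : Prop :=
  ∀ φ : ℝ → ℝ → ℝ, Adm φ → ∀ δ : ℝ, 0 < δ → ∃ J : Jet,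
    (∀ θ ρ, |J.f θ ρ - φ θ ρ| ≤ δ) ∧ ∀ θ ρ, 0 ≤ J.p θ ρ ∧ J.p θ ρ ≤ 1

/-- REG: smoothing, with slopes in `[e/2, 1 - e/2]`. -/
def RegStatement : Prop :=
  ∀ φ : ℝ → ℝ → ℝ, Adm φ → ∀ e : ℝ, 0 < e → e < 1 → ∀ δ : ℝ, 0 < δ → ∃ J : Jet,
    (∀ θ ρ, |J.f θ ρ - ((1 - e) * φ θ ρ + e / 2 * ρ)| ≤ δ) ∧
      ∀ θ ρ, e / 2 ≤ J.p θ ρ ∧ J.p θ ρ ≤ 1 - e / 2

/-- EXPI: exponentials of coercive concave functions. -/
def ExpiStatement : Prop :=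
  ∀ χ : ℝ → ℝ, ConcaveOn ℝ Set.univ χ → Coer χ →
    Integrable (fun x => Real.exp (χ x)) ∧
    Tendsto (fun x => Real.exp (χ x)) atBot (𝓝 0) ∧
    Tendsto (fun x => Real.exp (χ x)) atTop (𝓝 0) ∧
    ∃ K : ℝ, ∀ ρ, (∫ x in Iic ρ, Real.exp (χ x) ≤ K * Real.exp (χ ρ)) ∨
      (∫ x in Ioi ρ, Real.exp (χ x) ≤ K * Real.exp (χ ρ))

/-- `exp (f₁ + f₂ - ρ)` -/
noncomputable def EE (J₁ J₂ : Jet) (θ ρ : ℝ) : ℝ := Real.exp (J₁.f θ ρ + J₂.f θ ρ - ρ)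

/-- The integrand. -/
noncomputable def F0 (J₁ J₂ : Jet) (θ ρ : ℝ) : ℝ := EE J₁ J₂ θ ρ * (J₁.p θ ρ * J₂.p θ ρ)

/-- Its first derivative in `θ`. -/
noncomputable def F1 (J₁ J₂ : Jet) (θ ρ : ℝ) : ℝ :=
  EE J₁ J₂ θ ρ * (J₁.p θ ρ * J₂.p θ ρ * (J₁.a θ ρ + J₂.a θ ρ) + J₁.m θ ρ * J₂.p θ ρ +
    J₁.p θ ρ * J₂.m θ ρ)

/-- Its second derivative in `θ`. -/
noncomputable def F2 (J₁ J₂ : Jet) (θ ρ : ℝ) : ℝ :=
  EE J₁ J₂ θ ρ * (J₁.p θ ρ * J₂.p θ ρ * (J₁.a θ ρ + J₂.a θ ρ) ^ 2 +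
    2 * (J₁.a θ ρ + J₂.a θ ρ) * (J₁.m θ ρ * J₂.p θ ρ + J₁.p θ ρ * J₂.m θ ρ) +
    J₁.p θ ρ * J₂.p θ ρ * (J₁.k θ ρ + J₂.k θ ρ) + J₁.c θ ρ * J₂.p θ ρ +
    2 * (J₁.m θ ρ * J₂.m θ ρ) + J₁.p θ ρ * J₂.c θ ρ)

/-- DIFF: differentiation under the integral sign, twice. -/
def DiffStatement : Prop :=
  ∀ J₁ J₂ : Jet, (∀ θ ρ, 0 ≤ J₁.p θ ρ ∧ J₁.p θ ρ ≤ 1) → (∀ θ ρ, 0 ≤ J₂.p θ ρ ∧ J₂.p θ ρ ≤ 1) →
    (∀ θ, Coer fun ρ => J₁.f θ ρ + J₂.f θ ρ - ρ) →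
    ∀ θ, Integrable (F0 J₁ J₂ θ) ∧ Integrable (F1 J₁ J₂ θ) ∧ Integrable (F2 J₁ J₂ θ) ∧
      HasDerivAt (fun x => ∫ ρ, F0 J₁ J₂ x ρ) (∫ ρ, F1 J₁ J₂ θ ρ) θ ∧
      HasDerivAt (fun x => ∫ ρ, F1 J₁ J₂ x ρ) (∫ ρ, F2 J₁ J₂ θ ρ) θ

/-- KID: the identity. All functions are functions of `ρ` (at a fixed `θ`), see section 2 of
`Paper.md`. -/
def KidStatement : Prop :=
  ∀ (E p q a b P Q m n k l c d ξ : ℝ → ℝ) (x : ℝ),
    HasDerivAt E (E x * (p x + q x - 1)) x →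
    HasDerivAt p (-(P x)) x → HasDerivAt q (-(Q x)) x →
    HasDerivAt a (m x) x → HasDerivAt b (n x) x →
    HasDerivAt k (c x) x → HasDerivAt l (d x) x →
    p x ≠ 0 → q x ≠ 0 →
    HasDerivAt ξ ((1 - p x - q x) * ξ x - a x - b x - (m x - P x * ξ x) / p x -
      (n x - Q x * ξ x) / q x) x →
    HasDerivAt (fun y => E y * (q y * k y + p y * l y - p y * q y * (p y + q y - 1) * ξ y ^ 2 -
        2 * (p y * q y) * ξ y * (a y + b y)))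
      (E x * (p x * q x * (a x + b x) ^ 2 + 2 * (a x + b x) * (m x * q x + p x * n x) +
        p x * q x * (k x + l x) + c x * q x + 2 * (m x * n x) + p x * d x) +
      E x * ((q x * (1 - q x) + Q x) * -(k x + 2 * m x * ξ x - P x * ξ x ^ 2) +
        (p x * (1 - p x) + P x) * -(l x + 2 * n x * ξ x - Q x * ξ x ^ 2) -
        2 * ((m x - P x * ξ x) * (n x - Q x * ξ x)) +
        p x * q x * ((1 - p x - q x) * ξ x - a x - b x) ^ 2)) x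

/-- SIGN: the sign of the second summand in KID. -/
def SignStatement : Prop :=
  ∀ p q a b P Q m n k l ξ : ℝ, 0 ≤ p → p ≤ 1 → 0 ≤ q → q ≤ 1 → 0 ≤ P → 0 ≤ Q → k ≤ 0 → l ≤ 0 →
    m ^ 2 ≤ P * -k → n ^ 2 ≤ Q * -l →
    0 ≤ (q * (1 - q) + Q) * -(k + 2 * m * ξ - P * ξ ^ 2) +
        (p * (1 - p) + P) * -(l + 2 * n * ξ - Q * ξ ^ 2) -
        2 * ((m - P * ξ) * (n - Q * ξ)) + p * q * ((1 - p - q) * ξ - a - b) ^ 2

/-- SM0: the second derivative is nonpositive where the first one is zero. -/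
def Sm0Statement : Prop :=
  ∀ (J₁ J₂ : Jet) (e : ℝ), 0 < e → (∀ θ ρ, e ≤ J₁.p θ ρ ∧ J₁.p θ ρ ≤ 1) →
    (∀ θ ρ, e ≤ J₂.p θ ρ ∧ J₂.p θ ρ ≤ 1) →
    (∀ θ, Coer fun ρ => J₁.f θ ρ + J₂.f θ ρ - ρ) →
    ∀ θ, ∫ ρ, F1 J₁ J₂ θ ρ = 0 → ∫ ρ, F2 J₁ J₂ θ ρ ≤ 0

/-- SMOOTH: the theorem for jets. -/
def SmoothStatement : Prop :=
  ∀ (J₁ J₂ : Jet) (e : ℝ), 0 < e → (∀ θ ρ, e ≤ J₁.p θ ρ ∧ J₁.p θ ρ ≤ 1) →
    (∀ θ ρ, e ≤ J₂.p θ ρ ∧ J₂.p θ ρ ≤ 1) →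
    (∀ θ, Coer fun ρ => J₁.f θ ρ + J₂.f θ ρ - ρ) →
    (∀ θ, 0 < ∫ ρ, F0 J₁ J₂ θ ρ) ∧
      ConcaveOn ℝ Set.univ (fun θ => Real.log (∫ ρ, F0 J₁ J₂ θ ρ))

/-- Concave functions of one variable, nondecreasing and 1-Lipschitz. -/
structure Slo (f : ℝ → ℝ) : Prop where
  conc : ConcaveOn ℝ Set.univ f
  mono : ∀ ρ ρ', ρ ≤ ρ' → f ρ ≤ f ρ'
  lip : ∀ ρ ρ', ρ ≤ ρ' → f ρ' ≤ f ρ + (ρ' - ρ)

/-- LIM: convergence of the integrals. -/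
def LimStatement : Prop :=
  ∀ (f g : ℝ → ℝ), Slo f → Slo g → (Coer fun ρ => f ρ + g ρ - ρ) →
  ∀ (e : ℕ → ℝ) (F P G Q : ℕ → ℝ → ℝ), (∀ N, 0 < e N ∧ e N < 1 / 2) → Tendsto e atTop (𝓝 0) →
    (∀ N, ConcaveOn ℝ Set.univ (F N)) → (∀ N, ConcaveOn ℝ Set.univ (G N)) →
    (∀ N ρ, HasDerivAt (F N) (P N ρ) ρ) → (∀ N ρ, HasDerivAt (G N) (Q N ρ) ρ) →
    (∀ N ρ, 0 ≤ P N ρ ∧ P N ρ ≤ 1) → (∀ N ρ, 0 ≤ Q N ρ ∧ Q N ρ ≤ 1) →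
    (∀ N ρ, |F N ρ - ((1 - e N) * f ρ + e N / 2 * ρ)| ≤ e N) →
    (∀ N ρ, |G N ρ - ((1 - e N) * g ρ + e N / 2 * ρ)| ≤ e N) →
    Tendsto (fun N => ∫ ρ, Real.exp (F N ρ + G N ρ - ρ) * (P N ρ * Q N ρ)) atTop
      (𝓝 (∫ ρ, Real.exp (f ρ + g ρ - ρ) * (deriv f ρ * deriv g ρ)))

/-- POS: positivity of the limit. -/
def PosStatement : Prop :=
  ∀ (f g : ℝ → ℝ), Slo f → Slo g → (Coer fun ρ => f ρ + g ρ - ρ) →
    0 < ∫ ρ, Real.exp (f ρ + g ρ - ρ) * (deriv f ρ * deriv g ρ)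

/-- TS1: the one dimensional two-sum theorem. -/
def Ts1Statement : Prop :=
  ∀ φ ψ : ℝ → ℝ → ℝ, Adm φ → Adm ψ → (∀ θ, Coer fun ρ => φ θ ρ + ψ θ ρ - ρ) →
    ConcaveOn ℝ Set.univ (fun θ =>
      Real.log (∫ ρ, Real.exp (φ θ ρ + ψ θ ρ - ρ) * (deriv (φ θ) ρ * deriv (ψ θ) ρ)))

/-! ### Part B: volumes -/

/-- The volume of the body cut out by the strips `|(L y)_i| ≤ e^{t_i}`. -/
noncomputable def Vol {k : ℕ} {ι : Type} [Fintype ι] (L : (Fin k → ℝ) →ₗ[ℝ] (ι → ℝ))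
    (t : ι → ℝ) : ℝ :=
  (volume {y : Fin k → ℝ | ∀ i, |L y i| ≤ Real.exp (t i)}).toReal

/-- The section function. -/
noncomputable def sec {k n : ℕ} (L : (ℝ × (Fin k → ℝ)) →ₗ[ℝ] (Fin n → ℝ)) (t : Fin n → ℝ)
    (z : ℝ) : ℝ :=
  (volume {y : Fin k → ℝ | ∀ i, |L (z, y) i| ≤ Real.exp (t i)}).toReal

/-- The volume of the part `|z| ≤ e^ρ`. -/
noncomputable def slab {k n : ℕ} (L : (ℝ × (Fin k → ℝ)) →ₗ[ℝ] (Fin n → ℝ)) (t : Fin n → ℝ)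
    (ρ : ℝ) : ℝ :=
  ∫ z in (-Real.exp ρ)..(Real.exp ρ), sec L t z

/-- BASIC: finiteness, positivity, monotonicity and homogeneity of `Vol`. -/
def BasicStatement : Prop :=
  ∀ (k : ℕ) (ι : Type) [Fintype ι] (L : (Fin k → ℝ) →ₗ[ℝ] (ι → ℝ)), Function.Injective L →
    (∀ t : ι → ℝ, volume {y : Fin k → ℝ | ∀ i, |L y i| ≤ Real.exp (t i)} ≠ ⊤) ∧
    (∀ t, 0 < Vol L t) ∧ (∀ s t : ι → ℝ, (∀ i, s i ≤ t i) → Vol L s ≤ Vol L t) ∧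
    ∀ (t : ι → ℝ) (s : ℝ), Vol L (fun i => t i + s) = Real.exp (k * s) * Vol L t

/-- SEC1: the section function is even, nonincreasing on `[0, ∞)`, positive near zero, zero far
away. -/
def Sec1Statement : Prop :=
  ∀ (k n : ℕ) (L : (ℝ × (Fin k → ℝ)) →ₗ[ℝ] (Fin n → ℝ)), Function.Injective L → ∀ t : Fin n → ℝ,
    (∀ z, volume {y : Fin k → ℝ | ∀ i, |L (z, y) i| ≤ Real.exp (t i)} ≠ ⊤) ∧
    (∀ z, sec L t (-z) = sec L t z) ∧ AntitoneOn (sec L t) (Ici 0) ∧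
    (∃ R, ∀ z, R ≤ z → sec L t z = 0) ∧ (∃ r, 0 < r ∧ 0 < sec L t r)

/-- SEC2: monotonicity and homogeneity of `slab`. -/
def Sec2Statement : Prop :=
  ∀ (k n : ℕ) (L : (ℝ × (Fin k → ℝ)) →ₗ[ℝ] (Fin n → ℝ)), Function.Injective L →
    (∀ t ρ, 0 < slab L t ρ) ∧
    (∀ s t : Fin n → ℝ, (∀ i, s i ≤ t i) → ∀ ρ, slab L s ρ ≤ slab L t ρ) ∧
    (∀ (t : Fin n → ℝ) (s ρ : ℝ),
      slab L (fun i => t i + s) (ρ + s) = Real.exp ((k + 1) * s) * slab L t ρ)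

/-- SEC3: behaviour of `log slab` in `ρ`. -/
def Sec3Statement : Prop :=
  ∀ (k n : ℕ) (L : (ℝ × (Fin k → ℝ)) →ₗ[ℝ] (Fin n → ℝ)), Function.Injective L → ∀ t : Fin n → ℝ,
    (∀ ρ ρ', ρ ≤ ρ' → slab L t ρ ≤ slab L t ρ') ∧
    (∀ ρ ρ', ρ ≤ ρ' → slab L t ρ' ≤ Real.exp (ρ' - ρ) * slab L t ρ) ∧
    (∃ c, ∀ ρ, slab L t ρ ≤ c) ∧
    (∃ c, ∀ ρ, slab L t ρ ≤ c * Real.exp ρ) ∧
    ∀ᵐ ρ : ℝ, HasDerivAt (fun x => Real.log (slab L t x))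
      (2 * Real.exp ρ * sec L t (Real.exp ρ) / slab L t ρ) ρ

/-- SEC4: the integral of TS1 is the volume of the two-sum. -/
def Sec4Statement : Prop :=
  ∀ (k l n m : ℕ) (L : (ℝ × (Fin k → ℝ)) →ₗ[ℝ] (Fin n → ℝ))
    (M : (ℝ × (Fin l → ℝ)) →ₗ[ℝ] (Fin m → ℝ)), Function.Injective L → Function.Injective M →
    ∀ (t : Fin n → ℝ) (s : Fin m → ℝ),
      ∫ ρ, Real.exp (Real.log (slab L t ρ) + Real.log (slab M s ρ) - ρ) *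
        (deriv (fun x => Real.log (slab L t x)) ρ * deriv (fun x => Real.log (slab M s x)) ρ) =
      2 * ∫ z, sec L t z * sec M s z

/-- `slab` is log-concave. -/
def SlabLC {k n : ℕ} (L : (ℝ × (Fin k → ℝ)) →ₗ[ℝ] (Fin n → ℝ)) : Prop :=
  ConcaveOn ℝ Set.univ (fun q : (Fin n → ℝ) × ℝ => Real.log (slab L q.1 q.2))

/-- COMB: two-sums, at the level of volumes. -/
def CombStatement : Prop :=
  ∀ (k l n m : ℕ) (L : (ℝ × (Fin k → ℝ)) →ₗ[ℝ] (Fin n → ℝ))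
    (M : (ℝ × (Fin l → ℝ)) →ₗ[ℝ] (Fin m → ℝ)), Function.Injective L → Function.Injective M →
    SlabLC L → SlabLC M →
    (∀ (t : Fin n → ℝ) (s : Fin m → ℝ), 0 < ∫ z, sec L t z * sec M s z) ∧
    ConcaveOn ℝ Set.univ (fun q : (Fin n → ℝ) × (Fin m → ℝ) =>
      Real.log (∫ z, sec L q.1 z * sec M q.2 z))

/-! ### Part C: the plane -/

/-- SCH: a criterion for concavity. -/
def SchStatement : Prop :=
  ∀ f : ℝ → ℝ, Continuous f →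
    (∀ x ε, 0 < ε → ∃ δ, 0 < δ ∧ ∀ h, 0 < h → h < δ → f (x + h) + f (x - h) - 2 * f x ≤ ε * h ^ 2) →
    ConcaveOn ℝ Set.univ f

/-- Nonzero, pairwise non proportional rows; at least two rows. -/
def Simp {ι : Type} (v w : ι → ℝ) : Prop :=
  (∃ i j : ι, i ≠ j) ∧ ∀ i j, i ≠ j → v i * w j - w i * v j ≠ 0

/-- The area of the polygon `{(x, y) : |v_i x + w_i y| ≤ h_i}`. -/
noncomputable def area {ι : Type} (v w h : ι → ℝ) : ℝ :=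
  (volume {y : ℝ × ℝ | ∀ i, |v i * y.1 + w i * y.2| ≤ h i}).toReal

/-- PLA0: the area as an integral of the lengths of its sections `v_i x + w_i y = z`. -/
def Pla0Statement : Prop :=
  ∀ (ι : Type) [Fintype ι] (v w : ι → ℝ), Simp v w → ∀ i : ι, ∃ g : ℝ → (ι → ℝ) → ℝ,
    (Continuous fun q : ℝ × (ι → ℝ) => g q.1 q.2) ∧
    (ConcaveOn ℝ Set.univ fun q : ℝ × (ι → ℝ) => g q.1 q.2) ∧
    (∀ z h, g (-z) h = g z h) ∧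
    (∀ z (h h' : ι → ℝ), (∀ j, j ≠ i → h j = h' j) → g z h = g z h') ∧
    (∀ h : ι → ℝ, (∀ j, 0 < h j) → 0 < g 0 h) ∧
    ∀ h : ι → ℝ, (∀ j, 0 < h j) → area v w h = ∫ z in (-(h i))..(h i), max 0 (g z h)

/-- PLA1: partial derivatives of the area. `S i h` is `h_i ∂_i area`. -/
def Pla1Statement : Prop :=
  ∀ (ι : Type) [Fintype ι] (v w : ι → ℝ), Simp v w → ∃ S : ι → (ι → ℝ) → ℝ,
    (∀ i h, (∀ j, 0 < h j) → 0 ≤ S i h) ∧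
    (∀ i, ContinuousOn (S i) {h | ∀ j, 0 < h j}) ∧
    (∀ h, (∀ j, 0 < h j) → 0 < area v w h ∧ ∑ i, S i h = 2 * area v w h) ∧
    (∀ h u : ι → ℝ, (∀ j, 0 < h j) → ∀ s : ℝ,
      HasDerivAt (fun x : ℝ => area v w (fun j => h j * Real.exp (x * u j)))
        (∑ i, u i * S i (fun j => h j * Real.exp (s * u j))) s) ∧
    (∀ i h, (∀ j, 0 < h j) → 0 < S i h → ∃ δ, 0 < δ ∧ ∀ h₁ h₂ : ι → ℝ,
      (∀ j, |h₁ j - h j| < δ) → (∀ j, |h₂ j - h j| < δ) → h₁ i = h i → h₂ i = h i →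
      area v w h₁ + area v w h₂ ≤ 2 * area v w (fun j => (h₁ j + h₂ j) / 2))

/-- PLA2: log-concavity of the area for simple systems. -/
def Pla2Statement : Prop :=
  ∀ (ι : Type) [Fintype ι] (v w : ι → ℝ), Simp v w →
    ConcaveOn ℝ Set.univ (fun t : ι → ℝ => Real.log (area v w (fun i => Real.exp (t i))))

/-- PLA3: dimension at most two. -/
def Pla3Statement : Prop :=
  ∀ (k n : ℕ) (L : (Fin k → ℝ) →ₗ[ℝ] (Fin n → ℝ)), Function.Injective L → k ≤ 2 →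
    ConcaveOn ℝ Set.univ (fun t : Fin n → ℝ => Real.log (Vol L t))

/-! ### Part D: from boxes to `ℓ_p` balls -/

/-- MIX: the integral of `exp (-∑ |e^{-t_i} (L y)_i|^p)` as an average of volumes. -/
def MixStatement : Prop :=
  ∀ (k n : ℕ) (L : (Fin k → ℝ) →ₗ[ℝ] (Fin n → ℝ)), Function.Injective L → ∀ p : ℝ, 1 ≤ p →
    ∀ t : Fin n → ℝ,
      (Integrable fun y : Fin k → ℝ => Real.exp (-∑ i, |Real.exp (-(t i)) * L y i| ^ p)) ∧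
      (Integrable fun r : Fin n → ℝ => Vol L (fun i => t i + r i) *
        ∏ i, (p * Real.exp (p * r i - Real.exp (p * r i)))) ∧
      ∫ y : Fin k → ℝ, Real.exp (-∑ i, |Real.exp (-(t i)) * L y i| ^ p) =
      ∫ r : Fin n → ℝ, Vol L (fun i => t i + r i) *
        ∏ i, (p * Real.exp (p * r i - Real.exp (p * r i)))

/-- PREK: averages with a log-concave weight. -/
def PrekStatement : Prop :=
  ∀ (n : ℕ) (V : (Fin n → ℝ) → ℝ) (p : ℝ), 1 ≤ p → (∀ t, 0 < V t) →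
    ConcaveOn ℝ Set.univ (fun t => Real.log (V t)) →
    (∀ t : Fin n → ℝ, Integrable fun r : Fin n → ℝ => V (fun i => t i + r i) *
        ∏ i, (p * Real.exp (p * r i - Real.exp (p * r i)))) →
    (∀ t : Fin n → ℝ, 0 < ∫ r : Fin n → ℝ, V (fun i => t i + r i) *
        ∏ i, (p * Real.exp (p * r i - Real.exp (p * r i)))) ∧
    ConcaveOn ℝ Set.univ (fun t : Fin n → ℝ => Real.log (∫ r : Fin n → ℝ, V (fun i => t i + r i) *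
        ∏ i, (p * Real.exp (p * r i - Real.exp (p * r i)))))

/-- PLC: if the sections of boxes are log-concave then so are the sections of `ℓ_p` balls. -/
def PlcStatement : Prop :=
  ∀ (n : ℕ) (H : Submodule ℝ (EuclideanSpace ℝ (Fin n))), LogConcave (cubeVol H) →
    ∀ p : ℝ, 1 ≤ p → LogConcave (sectionVol p H)

/-! ### Part E: subspaces -/

/-- PAR: Lebesgue measure on `H` in terms of an arbitrary parametrisation. -/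
def ParStatement : Prop :=
  ∀ (n : ℕ) (H : Submodule ℝ (EuclideanSpace ℝ (Fin n))) (E : Type) [NormedAddCommGroup E]
    [NormedSpace ℝ E] [FiniteDimensional ℝ E] [MeasurableSpace E] [BorelSpace E] (μ : Measure E)
    [μ.IsAddHaarMeasure] (L : E ≃ₗ[ℝ] H), ∃ c : ℝ, 0 < c ∧
    ∀ S : Set (EuclideanSpace ℝ (Fin n)), MeasurableSet S →
      (lebesgueOn H S).toReal = c * (μ {e | (L e : EuclideanSpace ℝ (Fin n)) ∈ S}).toReal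

/-- POSC: positivity and finiteness of `cubeVol`. -/
def PoscStatement : Prop :=
  ∀ (n : ℕ) (H : Submodule ℝ (EuclideanSpace ℝ (Fin n))) (t : Fin n → ℝ), 0 < cubeVol H t

/-- NORM: parametrisation with the first coordinate as first parameter. -/
def NormStatement : Prop :=
  ∀ (n : ℕ) (H : Submodule ℝ (EuclideanSpace ℝ (Fin (n + 1)))), (∃ x ∈ H, x 0 ≠ 0) →
    ∃ (k : ℕ) (L : (ℝ × (Fin k → ℝ)) ≃ₗ[ℝ] H),
      ∀ q, ((L q : H) : EuclideanSpace ℝ (Fin (n + 1))) 0 = q.1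

/-- TWV: the volumes of a two-sum. -/
def TwvStatement : Prop :=
  ∀ (n m : ℕ) (H₁ : Submodule ℝ (EuclideanSpace ℝ (Fin (n + 1))))
    (H₂ : Submodule ℝ (EuclideanSpace ℝ (Fin (m + 1)))), Proper H₁ → Proper H₂ →
    ∃ (k l : ℕ) (L : (ℝ × (Fin k → ℝ)) →ₗ[ℝ] (Fin n → ℝ))
      (M : (ℝ × (Fin l → ℝ)) →ₗ[ℝ] (Fin m → ℝ)) (c₁ c₂ c₃ : ℝ),
      Function.Injective L ∧ Function.Injective M ∧ 0 < c₁ ∧ 0 < c₂ ∧ 0 < c₃ ∧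
      (∀ t ρ, cubeVol H₁ (Fin.cons ρ t : Fin (n + 1) → ℝ) = c₁ * slab L t ρ) ∧
      (∀ s ρ, cubeVol H₂ (Fin.cons ρ s : Fin (m + 1) → ℝ) = c₂ * slab M s ρ) ∧
      ∀ (t : Fin n → ℝ) (s : Fin m → ℝ),
        cubeVol (twoSum H₁ H₂) (Fin.append t s) = c₃ * ∫ z, sec L t z * sec M s z

/-- DSV: the volumes of a direct sum. -/
def DsvStatement : Prop :=
  ∀ (n m : ℕ) (H₁ : Submodule ℝ (EuclideanSpace ℝ (Fin n)))
    (H₂ : Submodule ℝ (EuclideanSpace ℝ (Fin m))), ∃ c : ℝ, 0 < c ∧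
    ∀ (t : Fin n → ℝ) (s : Fin m → ℝ),
      cubeVol (dirSum H₁ H₂) (Fin.append t s) = c * (cubeVol H₁ t * cubeVol H₂ s)

/-- PERMV: the volumes after a permutation of the coordinates. -/
def PermvStatement : Prop :=
  ∀ (n : ℕ) (σ : Equiv.Perm (Fin n)) (H : Submodule ℝ (EuclideanSpace ℝ (Fin n)))
    (t : Fin n → ℝ), cubeVol (permSub σ H) t = cubeVol H (fun i => t (σ i))

/-- SMALL: subspaces of dimension at most two. -/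
def SmallStatement : Prop :=
  ∀ (n : ℕ) (H : Submodule ℝ (EuclideanSpace ℝ (Fin n))), Module.finrank ℝ H ≤ 2 →
    LogConcave (cubeVol H)

/-- CUBE: all subspaces of the class. -/
def CubeStatement : Prop :=
  ∀ (n : ℕ) (H : Submodule ℝ (EuclideanSpace ℝ (Fin n))), Built H → LogConcave (cubeVol H)

/-- MAIN: the final theorem. -/
def MainStatement : Prop :=
  ∀ (n : ℕ) (H : Submodule ℝ (EuclideanSpace ℝ (Fin n))), Built H →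
    LogConcave (cubeVol H) ∧ ∀ p : ℝ, 1 ≤ p → LogConcave (sectionVol p H)

/-- HYP: all subspaces of codimension at most one belong to the class. -/
def HypStatement : Prop :=
  ∀ (n : ℕ) (H : Submodule ℝ (EuclideanSpace ℝ (Fin n))), n ≤ Module.finrank ℝ H + 1 → Built H

end Pool.Agent.Lib.MP_fa837f_gt.TS
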